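import Pool.Agent.H992.PM.Defs

/-!
# PM/MBD: bounded moments (MP_a54f13_nt)
-/

set_option autoImplicit false
open MeasureTheory Filter Topology Complex ProbabilityTheory
open scoped ContDiff ENNReal

namespace Pool.Agent.H364.PM

open Pool.Agent.W745.RW (TF)
open Pool.Agent.N661.BR (MW IsRandomWave)
open Pool.Agent.N661.BH (loc HP mv)
open Pool.Agent.N814.BHM (P Pz Q mass)
open Pool.Agent.N814.BHASM (Hyp X FI FI_meas E X_meas X_bdd mpos probz probP wt wt_tf wt_nonneg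
  conv small nw nw')
open Pool.Agent.H992.PM

noncomputable section

variable {Ω : Set ℂ} {lam : ℕ → ℝ} {u : ℕ → ℂ → ℝ}

/-- change of variables -/
lemma CVr {s : ℝ} {v : ℂ} (hd : 0 < 1 + s * v.im) {g : ℂ → ℝ} (hg : Integrable g) :
    Integrable (fun z => g (mv s v z)) ∧
      (1 + s * v.im) * ∫ z, g (mv s v z) = ∫ z, g z := by
  have hdet : LinearMap.det (Pool.Agent.N645.BH.L s v) ≠ 0 := by
    rw [Pool.Agent.N645.BH.L_det]; exact hd.ne'
  have hm := Measure.map_linearMap_addHaar_eq_smul_addHaar (volume : Measure ℂ) hdet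
  have hmeas : Measurable (Pool.Agent.N645.BH.L s v) :=
    (Pool.Agent.N40.BRSTATH.mvc s v).measurable
  have hi : Integrable g (Measure.map (Pool.Agent.N645.BH.L s v) volume) := by
    rw [hm]; exact hg.smul_measure ENNReal.ofReal_ne_top
  refine ⟨(integrable_map_measure hi.1 hmeas.aemeasurable).1 hi, ?_⟩
  have h1 : ∫ z, g (mv s v z) = ∫ y, g y ∂(Measure.map (Pool.Agent.N645.BH.L s v) volume) :=
    (integral_map hmeas.aemeasurable hi.1).symm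
  rw [h1, hm, integral_smul_measure, ENNReal.toReal_ofReal (abs_nonneg _),
    Pool.Agent.N645.BH.L_det, smul_eq_mul, ← mul_assoc, abs_of_pos (inv_pos.2 hd),
    mul_inv_cancel₀ hd.ne', one_mul]

/-- the frame -/
def R (q : ℝ × Bool) (w : ℂ) : ℂ :=
  if q.2 = true then E q.1 * w else E q.1 * starRingEnd ℂ w

lemma R_norm (q : ℝ × Bool) (w : ℂ) : ‖R q w‖ = ‖w‖ := by
  unfold R
  split_ifs
  · exact nw _ _
  · exact nw' _ _

lemma Xr_eq (lam : ℝ) (u : ℂ → ℝ) (w z : ℂ) (q : ℝ × Bool) :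
    Xr lam u w (z, q) = (FI lam u 0 (mv (1 / √lam) (R q w) z)).re := by
  unfold Xr X R
  split_ifs <;> simp

lemma mv_comp {h ρ : ℝ} {a b c : ℂ} (hρ : ρ * (1 + h * b.im) = 1 + h * a.im)
    (hc : c = (h : ℂ) * (a - (ρ : ℂ) * b)) :
    1 + 1 * c.im = ρ ∧ ∀ z, mv h b (mv 1 c z) = mv h a z := by
  have h1 : 1 + 1 * c.im = ρ := by
    have h2 : c.im = h * (a.im - ρ * b.im) := by
      rw [hc, Complex.im_ofReal_mul, Complex.sub_im, Complex.im_ofReal_mul]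
    rw [h2]
    linear_combination -hρ
  refine ⟨h1, fun z => ?_⟩
  have h3 : (mv 1 c z).im = z.im * ρ := by
    rw [Pool.Agent.N814.BHASM.mv_im, h1]
  have h4 : mv h b (mv 1 c z) = mv 1 c z + ((h * (mv 1 c z).im : ℝ) : ℂ) * b := rfl
  rw [h4, h3]
  unfold mv
  rw [hc]
  push_cast
  ring

lemma mv_dist (c z : ℂ) : ‖mv 1 c z - z‖ ≤ ‖z‖ * ‖c‖ := by
  unfold mv
  rw [add_sub_cancel_left, one_mul, norm_mul, Complex.norm_real, Real.norm_eq_abs]
  exact mul_le_mul_of_nonneg_right (Complex.abs_im_le_norm z) (norm_nonneg _)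

lemma core (H : Hyp Ω lam u) {ψ χ : ℂ → ℝ} (hψ : TF Ω ψ) (hψ0 : ∀ z, 0 ≤ ψ z) (hχ : TF Ω χ)
    (hsub : tsupport χ ⊆ {z | 0 < ψ z}) (r : ℝ) :
    ∃ K : ℝ, 0 ≤ K ∧ ∀ᶠ n in atTop, ∀ a b : ℂ, ‖a‖ ≤ r → ‖b‖ ≤ r → ∃ c : ℂ,
      0 < 1 + 1 * c.im ∧
      (∀ z, mv (1 / √(lam n)) b (mv 1 c z) = mv (1 / √(lam n)) a z) ∧
      ∀ z, wt χ z ≤ K * ((1 + 1 * c.im) * wt ψ (mv 1 c z)) := by
  have wχ := wt_tf H hχ
  have wψ := wt_tf H hψ
  obtain ⟨C1, hC1⟩ := wχ.1.continuous.bounded_above_of_compact_support wχ.2.1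
  have hC10 : 0 ≤ C1 := (norm_nonneg _).trans (hC1 0)
  have hcomp : IsCompact (tsupport χ) := hχ.2.1
  have hpos : ∀ z ∈ tsupport χ, 0 < wt ψ z := by
    intro z hz
    have h1 : 0 < ψ z := hsub hz
    have h2 : 0 < z.im := H.sub (hχ.2.2 hz)
    unfold wt
    positivity
  obtain ⟨δ, hδ, hδ'⟩ := hcomp.exists_forall_le' wψ.1.continuous.continuousOn hpos
  have huc := wψ.2.1.uniformContinuous_of_continuous wψ.1.continuous
  obtain ⟨η, hη, hη'⟩ := Metric.uniformContinuous_iff.1 huc (δ / 2) (by positivity)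
  obtain ⟨B, hB⟩ := hcomp.isBounded.subset_closedBall (0 : ℂ)
  have hB' : ∀ z ∈ tsupport χ, ‖z‖ ≤ |B| := by
    intro z hz
    have := hB hz
    rw [mem_closedBall_zero_iff] at this
    exact this.trans (le_abs_self B)
  have hlim : Tendsto (fun n => 1 / √(lam n)) atTop (𝓝 0) := H.sys.hlim
  have l1 : ∀ᶠ n in atTop, 1 / √(lam n) * |r| < 1 / 2 := by
    have h1 := hlim.mul_const |r|
    rw [zero_mul] at h1
    exact h1.eventually (gt_mem_nhds (by norm_num))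
  have l2 : ∀ᶠ n in atTop, 1 / √(lam n) * (|B| * (4 * |r|)) < η := by
    have h1 := hlim.mul_const (|B| * (4 * |r|))
    rw [zero_mul] at h1
    exact h1.eventually (gt_mem_nhds hη)
  refine ⟨6 * C1 / δ, by positivity, ?_⟩
  filter_upwards [l1, l2] with n m1 m2 a b ha hb
  obtain ⟨h, hh⟩ : ∃ h : ℝ, h = 1 / √(lam n) := ⟨_, rfl⟩
  have hh0 : 0 ≤ h := by rw [hh]; positivity
  rw [← hh] at m1 m2 ⊢
  have ha' : ‖a‖ ≤ |r| := ha.trans (le_abs_self r)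
  have hb' : ‖b‖ ≤ |r| := hb.trans (le_abs_self r)
  have key : ∀ x : ℂ, ‖x‖ ≤ |r| → |h * x.im| ≤ 1 / 2 := by
    intro x hx
    rw [abs_mul, abs_of_nonneg hh0]
    have := mul_le_mul_of_nonneg_left ((Complex.abs_im_le_norm x).trans hx) hh0
    linarith
  have ka := abs_le.1 (key a ha')
  have kb := abs_le.1 (key b hb')
  have hb1 : 0 < 1 + h * b.im := by linarith [kb.1]
  obtain ⟨ρ, hρ⟩ : ∃ ρ : ℝ, ρ = (1 + h * a.im) / (1 + h * b.im) := ⟨_, rfl⟩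
  have hρ1 : ρ * (1 + h * b.im) = 1 + h * a.im := by
    rw [hρ]; exact div_mul_cancel₀ _ hb1.ne'
  have hρl : 1 / 3 ≤ ρ := by
    rw [hρ, le_div_iff₀ hb1]
    linarith [ka.1, kb.2]
  have hρu : ρ ≤ 3 := by
    rw [hρ, div_le_iff₀ hb1]
    linarith [ka.2, kb.1]
  obtain ⟨c, hc⟩ : ∃ c : ℂ, c = (h : ℂ) * (a - (ρ : ℂ) * b) := ⟨_, rfl⟩
  obtain ⟨hc1, hc2⟩ := mv_comp hρ1 hc
  have hcn : ‖c‖ ≤ h * (4 * |r|) := by
    rw [hc, norm_mul, Complex.norm_real, Real.norm_eq_abs, abs_of_nonneg hh0]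
    refine mul_le_mul_of_nonneg_left ?_ hh0
    refine (norm_sub_le _ _).trans ?_
    rw [norm_mul, Complex.norm_real, Real.norm_eq_abs, abs_of_nonneg (by linarith : 0 ≤ ρ)]
    have : ρ * ‖b‖ ≤ 3 * |r| := mul_le_mul hρu hb' (norm_nonneg _) (by norm_num)
    linarith
  refine ⟨c, by rw [hc1]; linarith, hc2, fun z => ?_⟩
  rw [hc1]
  by_cases hz : z ∈ tsupport χ
  · have d1 : dist (mv 1 c z) z < η := by
      rw [dist_eq_norm]
      refine (mv_dist c z).trans_lt (lt_of_le_of_lt ?_ m2)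
      calc ‖z‖ * ‖c‖ ≤ |B| * (h * (4 * |r|)) :=
            mul_le_mul (hB' z hz) hcn (norm_nonneg _) (abs_nonneg _)
        _ = h * (|B| * (4 * |r|)) := by ring
    have d2 := hη' d1
    rw [Real.dist_eq] at d2
    have d3 := (abs_lt.1 d2).1
    have d4 := hδ' z hz
    have d5 : δ / 2 ≤ wt ψ (mv 1 c z) := by linarith
    have d6 : wt χ z ≤ C1 := (le_abs_self _).trans (hC1 z)
    refine d6.trans ?_
    have d7 : 1 / 3 * (δ / 2) ≤ ρ * wt ψ (mv 1 c z) :=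
      mul_le_mul hρl d5 (by positivity) (by linarith)
    calc C1 = 6 * C1 / δ * (1 / 3 * (δ / 2)) := by
          field_simp
          ring
      _ ≤ _ := mul_le_mul_of_nonneg_left d7 (by positivity)
  · have : wt χ z = 0 := by
      unfold wt
      rw [image_eq_zero_of_notMem_tsupport hz, zero_mul]
    rw [this]
    exact mul_nonneg (by positivity) (mul_nonneg (by linarith) (wt_nonneg hψ0 _))

lemma slice {ψ χ F : ℂ → ℝ} {h K : ℝ} {a b c : ℂ} (hχ0 : ∀ z, 0 ≤ χ z) (hF : ∀ z, 0 ≤ F z)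
    (hint : Integrable (fun z => wt ψ z * F (mv h b z))) (hc : 0 < 1 + 1 * c.im)
    (hm : ∀ z, mv h b (mv 1 c z) = mv h a z)
    (hK : ∀ z, wt χ z ≤ K * ((1 + 1 * c.im) * wt ψ (mv 1 c z))) :
    ∫ z, wt χ z * F (mv h a z) ≤ K * ∫ z, wt ψ z * F (mv h b z) := by
  obtain ⟨i1, e1⟩ := CVr hc hint
  rw [← e1, ← integral_const_mul, ← integral_const_mul]
  refine integral_mono_of_nonneg (Eventually.of_forall fun z => ?_)
    ((i1.const_mul _).const_mul _) (Eventually.of_forall fun z => ?_)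
  · exact mul_nonneg (wt_nonneg hχ0 z) (hF _)
  · show wt χ z * F (mv h a z) ≤
      K * ((1 + 1 * c.im) * (wt ψ (mv 1 c z) * F (mv h b (mv 1 c z))))
    rw [hm z]
    calc wt χ z * F (mv h a z) ≤ K * ((1 + 1 * c.im) * wt ψ (mv 1 c z)) * F (mv h a z) :=
          mul_le_mul_of_nonneg_right (hK z) (hF _)
      _ = _ := by ring

lemma int_gen' (H : Hyp Ω lam u) {φ : ℂ → ℝ} (hφ : TF Ω φ) {G : ℂ × (ℝ × Bool) → ℝ}
    (hG : Measurable G) {C : ℝ} (hC0 : 0 ≤ C) (hC : ∀ p, p.1 ∈ tsupport φ → |G p| ≤ C) :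
    Integrable (fun p => φ p.1 * G p) (P Ω) := by
  have := probP H
  obtain ⟨D, hD⟩ := hφ.1.continuous.bounded_above_of_compact_support hφ.2.1
  have hD0 : 0 ≤ D := (norm_nonneg _).trans (hD 0)
  refine Integrable.of_bound ?_ (D * C) (Eventually.of_forall fun p => ?_)
  · exact ((hφ.1.continuous.measurable.comp measurable_fst).mul hG).aestronglyMeasurable
  · by_cases hp : p.1 ∈ tsupport φ
    · rw [norm_mul]
      exact mul_le_mul (hD _) (hC p hp) (norm_nonneg _) hD0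
    · rw [image_eq_zero_of_notMem_tsupport hp, zero_mul, norm_zero]
      positivity

lemma int_vol (H : Hyp Ω lam u) {φ : ℂ → ℝ} (hφ : TF Ω φ) {G : ℂ → ℝ}
    (hG : Measurable G) {C : ℝ} (hC : ∀ z, z ∈ tsupport φ → |G z| ≤ C) :
    Integrable (fun z => wt φ z * G z) := by
  have w := wt_tf H hφ
  have i1 : Integrable (wt φ) := w.1.continuous.integrable_of_hasCompactSupport w.2.1
  refine (i1.norm.const_mul C).mono' (w.1.continuous.measurable.mul hG).aestronglyMeasurable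
    (Eventually.of_forall fun z => ?_)
  by_cases hz : z ∈ tsupport φ
  · rw [norm_mul, mul_comm]
    exact mul_le_mul_of_nonneg_right (hC z hz) (norm_nonneg _)
  · have : wt φ z = 0 := by
      unfold wt
      rw [image_eq_zero_of_notMem_tsupport hz, zero_mul]
    rw [this]
    simp

lemma Xr_meas (H : Hyp Ω lam u) (n : ℕ) (w : ℂ) : Measurable (Xr (lam n) (u n) w) :=
  Complex.measurable_re.comp (X_meas (H.sm n) 0 w)

lemma Xr_bdd (H : Hyp Ω lam u) {φ : ℂ → ℝ} (hφ : TF Ω φ) (n : ℕ) {w : ℂ}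
    (hw : 1 / √(lam n) * ‖w‖ < 1) : ∃ C : ℝ, 0 ≤ C ∧ ∀ p : ℂ × (ℝ × Bool), p.1 ∈ tsupport φ →
      |Xr (lam n) (u n) w p| ≤ C := by
  obtain ⟨C, h0, hC⟩ := X_bdd (H.sm n) 0 hw hφ.2.1 (hφ.2.2.trans H.sub)
  exact ⟨C, h0, fun p hp => (Complex.abs_re_le_norm _).trans (hC p hp)⟩

/-- comparison of the even moments -/
lemma comp_mom (H : Hyp Ω lam u) {ψ χ : ℂ → ℝ} (hψ : TF Ω ψ) (hχ : TF Ω χ)
    (hχ0 : ∀ z, 0 ≤ χ z) {K : ℝ} (n : ℕ) {v w : ℂ} (hv : 1 / √(lam n) * ‖v‖ < 1)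
    (hw : 1 / √(lam n) * ‖w‖ < 1) (hK : ∀ a b : ℂ, ‖a‖ ≤ max ‖v‖ ‖w‖ → ‖b‖ ≤ max ‖v‖ ‖w‖ →
      ∃ c : ℂ, 0 < 1 + 1 * c.im ∧
      (∀ z, mv (1 / √(lam n)) b (mv 1 c z) = mv (1 / √(lam n)) a z) ∧
      ∀ z, wt χ z ≤ K * ((1 + 1 * c.im) * wt ψ (mv 1 c z))) (m : ℕ) :
    ∫ p, χ p.1 * Xr (lam n) (u n) v p ^ (2 * m) ∂(P Ω) ≤
      K * ∫ p, ψ p.1 * Xr (lam n) (u n) w p ^ (2 * m) ∂(P Ω) := by
  have := probz H
  obtain ⟨C1, hC10, hC1⟩ := Xr_bdd H hχ n hv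
  obtain ⟨C2, hC20, hC2⟩ := Xr_bdd H hψ n hw
  have i1 : Integrable (fun p => χ p.1 * Xr (lam n) (u n) v p ^ (2 * m)) (P Ω) :=
    int_gen' H hχ ((Xr_meas H n v).pow_const _) (C := C1 ^ (2 * m)) (by positivity)
      fun p hp => by
        rw [abs_pow]
        exact pow_le_pow_left₀ (abs_nonneg _) (hC1 p hp) _
  have i2 : Integrable (fun p => ψ p.1 * Xr (lam n) (u n) w p ^ (2 * m)) (P Ω) :=
    int_gen' H hψ ((Xr_meas H n w).pow_const _) (C := C2 ^ (2 * m)) (by positivity)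
      fun p hp => by
        rw [abs_pow]
        exact pow_le_pow_left₀ (abs_nonneg _) (hC2 p hp) _
  unfold P at i1 i2 ⊢
  rw [integral_prod_symm _ i1, integral_prod_symm _ i2, ← integral_const_mul]
  refine integral_mono i1.integral_prod_right (i2.integral_prod_right.const_mul K) fun q => ?_
  show ∫ z, χ z * Xr (lam n) (u n) v (z, q) ^ (2 * m) ∂(Pz Ω) ≤
    K * ∫ z, ψ z * Xr (lam n) (u n) w (z, q) ^ (2 * m) ∂(Pz Ω)
  rw [conv H hχ, conv H hψ, mul_left_comm]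
  refine mul_le_mul_of_nonneg_left ?_ (inv_pos.2 (mpos H)).le
  simp only [Xr_eq]
  obtain ⟨c, c1, c2, c3⟩ := hK (R q v) (R q w) (by rw [R_norm]; exact le_max_left _ _)
    (by rw [R_norm]; exact le_max_right _ _)
  refine slice (F := fun z => (FI (lam n) (u n) 0 z).re ^ (2 * m)) hχ0 (fun z => ?_) ?_ c1 c2 c3
  · rw [pow_mul]
    positivity
  · refine int_vol H hψ (C := C2 ^ (2 * m)) ?_ fun z hz => ?_
    · exact ((Complex.measurable_re.comp (FI_meas (H.sm n) 0)).comp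
        (Pool.Agent.N40.BRSTATH.mvc _ _).measurable).pow_const _
    · have h1 := hC2 (z, q) hz
      rw [Xr_eq] at h1
      show |(FI (lam n) (u n) 0 (mv (1 / √(lam n)) (R q w) z)).re ^ (2 * m)| ≤ _
      rw [abs_pow]
      exact pow_le_pow_left₀ (abs_nonneg _) h1 _

/-- **PM/MBD** -/
theorem mbd (h1 : S_PB) (_h2 : S_GM) : S_PM := by
  intro Ω lam u H γ hγp hγ ψ hψ hψ0 U hU hB χ hχ hχ0 hsub v q
  obtain ⟨w, hw⟩ := hU
  obtain ⟨C, hC⟩ := hB
  have e1 := hC 1 (fun _ => w) (MvPolynomial.X 0 ^ (2 * q)) (fun _ => hw) 1 one_pos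
  have e2 := h1 Ω lam u H ψ hψ 1 (fun _ => w) (MvPolynomial.X 0 ^ (2 * q))
  obtain ⟨D, hD⟩ : ∃ D : ℝ, D = C * (∫ f : MW, MvPolynomial.eval
      (fun j : Fin 1 => f ((fun _ => w) j)) (MvPolynomial.X 0 ^ (2 * q)) ^ 2 ∂γ) + 1 := ⟨_, rfl⟩
  rw [← hD] at e1
  obtain ⟨K, hK0, hK⟩ := core H hψ hψ0 hχ hsub (max ‖v‖ ‖w‖)
  refine ⟨(∫ p, χ p.1 ∂(P Ω)) + K * ((mass Ω)⁻¹ * √D), ?_⟩
  filter_upwards [e1, e2, hK, small H v, small H w] with n g1 g2 g3 s1 s2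
  obtain ⟨C1, hC10, hC1⟩ := Xr_bdd H hχ n s1
  have iχ : Integrable (fun p : ℂ × (ℝ × Bool) => χ p.1) (P Ω) := by
    have := int_gen' H hχ (G := fun _ => 1) measurable_const (C := 1) zero_le_one
      (fun p _ => by simp)
    simpa only [mul_one] using this
  have i0 : Integrable (fun p => χ p.1 * |Xr (lam n) (u n) v p| ^ q) (P Ω) :=
    int_gen' H hχ ((measurable_norm.comp (Xr_meas H n v)).pow_const _) (C := C1 ^ q)
      (by positivity) fun p hp => by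
        show |(|Xr (lam n) (u n) v p|) ^ q| ≤ _
        rw [abs_pow, abs_abs]
        exact pow_le_pow_left₀ (abs_nonneg _) (hC1 p hp) _
  have i1 : Integrable (fun p => χ p.1 * Xr (lam n) (u n) v p ^ (2 * q)) (P Ω) :=
    int_gen' H hχ ((Xr_meas H n v).pow_const _) (C := C1 ^ (2 * q)) (by positivity)
      fun p hp => by
        rw [abs_pow]
        exact pow_le_pow_left₀ (abs_nonneg _) (hC1 p hp) _
  refine ⟨i0, ?_⟩
  have k1 := comp_mom H hψ hχ hχ0 n s1 s2 g3 q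
  have k2 : ∫ p, ψ p.1 * Xr (lam n) (u n) w p ^ (2 * q) ∂(P Ω) ≤ (mass Ω)⁻¹ * √D := by
    have h3 := g2.2
    simp only [map_pow, MvPolynomial.eval_X] at h3
    have h4 := (le_abs_self _).trans (Real.abs_le_sqrt g1)
    rw [h3] at h4
    have hm := mpos H
    rw [inv_mul_eq_div, le_div_iff₀ hm, mul_comm]
    exact h4
  calc ∫ p, χ p.1 * |Xr (lam n) (u n) v p| ^ q ∂(P Ω)
      ≤ ∫ p, (χ p.1 + χ p.1 * Xr (lam n) (u n) v p ^ (2 * q)) ∂(P Ω) := by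
        refine integral_mono i0 (iχ.add i1) fun p => ?_
        show χ p.1 * |Xr (lam n) (u n) v p| ^ q ≤ χ p.1 + χ p.1 * Xr (lam n) (u n) v p ^ (2 * q)
        have h5 : |Xr (lam n) (u n) v p| ^ q ≤ 1 + Xr (lam n) (u n) v p ^ (2 * q) := by
          have h6 : Xr (lam n) (u n) v p ^ (2 * q) = (|Xr (lam n) (u n) v p| ^ q) ^ 2 := by
            rw [← pow_mul, mul_comm q 2, pow_mul, pow_mul, sq_abs]
          rw [h6]
          nlinarith [sq_nonneg (|Xr (lam n) (u n) v p| ^ q - 1),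
            pow_nonneg (abs_nonneg (Xr (lam n) (u n) v p)) q]
        have h7 := mul_le_mul_of_nonneg_left h5 (hχ0 p.1)
        linarith
    _ = (∫ p, χ p.1 ∂(P Ω)) + ∫ p, χ p.1 * Xr (lam n) (u n) v p ^ (2 * q) ∂(P Ω) :=
        integral_add iχ i1
    _ ≤ (∫ p, χ p.1 ∂(P Ω)) + K * ((mass Ω)⁻¹ * √D) := by
        have := k1.trans (mul_le_mul_of_nonneg_left k2 hK0)
        linarith

end

end Pool.Agent.H364.PM
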